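import Pool.Agent.Helper19.GH.Label

/-!
# The extension step
-/

namespace Pool.Agent.Helper19.GH

open Finset

variable {V : Type} [Fintype V] [DecidableEq V]

omit [Fintype V] in
/-- An enumeration of a finite set by `1, ..., card`. -/
lemma exists_index (C : Finset V) : ∃ j : V → ℕ, (∀ y ∈ C, 1 ≤ j y ∧ j y ≤ C.card) ∧
    Set.InjOn j C ∧ ∀ i, 1 ≤ i → i ≤ C.card → ∃ y ∈ C, j y = i := by
  classical
  refine ⟨fun y => if h : y ∈ C then (C.equivFin ⟨y, h⟩ : ℕ) + 1 else 0, ?_, ?_, ?_⟩
  · intro y hy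
    simp only [hy, dif_pos]
    have := (C.equivFin ⟨y, hy⟩).2
    omega
  · intro x hx y hy hxy
    simp only [mem_coe.1 hx, mem_coe.1 hy, dif_pos] at hxy
    have h1 : C.equivFin ⟨x, hx⟩ = C.equivFin ⟨y, hy⟩ := Fin.ext (by omega)
    have h2 := C.equivFin.injective h1
    exact congrArg Subtype.val h2
  · intro i h1 h2
    let k : Fin C.card := ⟨i - 1, by omega⟩
    refine ⟨(C.equivFin.symm k).1, (C.equivFin.symm k).2, ?_⟩
    have h3 : ((C.equivFin.symm k).1 : V) ∈ C := (C.equivFin.symm k).2
    simp only [h3, dif_pos]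
    have h4 : C.equivFin ⟨(C.equivFin.symm k).1, h3⟩ = k := by
      have : (⟨(C.equivFin.symm k).1, h3⟩ : C) = C.equivFin.symm k := rfl
      rw [this, Equiv.apply_symm_apply]
    rw [h4]
    show (i - 1) + 1 = i
    omega

/-- The extension step: a vertex `a` of even depth and its children are added. -/
lemma extend {n : ℕ} [NeZero n] {v : V} {par : V → V} {d : V → ℕ} {L S : Finset V}
    {f : V → ZMod n} (hv : d v = 0) (hd : ∀ x, x ≠ v → d x = d (par x) + 1)
    (hL : ∀ x ∈ L, par x = v) (hSe : ∀ s ∈ S, s ≠ v ∧ Even (d s) ∧ par (par s) ∈ insert v S)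
    (hs : State n v par d L S f) {a : V} (haS : a ∉ S) (hav : a ≠ v) (hae : Even (d a))
    (hap : par (par a) ∈ insert v S) (hpL : par a ∉ L)
    (hb : S.card + 1 +
      (∑ j ∈ Icc 1 ((univ.filter fun y : V => y ≠ v ∧ par y = a).card + 1), Nat.gcd j n) *
      (1 + (univ.filter fun b : V => ¬ Even (d b) ∧ b ∉ L ∧ par b ∈ insert v S).card +
        (S ∪ univ.filter fun b : V => ¬ Even (d b) ∧ b ∉ L ∧ par b ∈ insert v S).card) < n) :
    ∃ f' : V → ZMod n, State n v par d L (insert a S) f' := by
  classical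
  set C := univ.filter fun y : V => y ≠ v ∧ par y = a with hC
  set BS := univ.filter fun b : V => ¬ Even (d b) ∧ b ∉ L ∧ par b ∈ insert v S with hBS
  set ES := S ∪ BS with hES
  obtain ⟨j, hj1, hj2, hj3⟩ := exists_index C
  set p := par a with hp
  set X := (insert v S).image f with hX
  set Y := insert 0 (BS.image (fun b => f p - f b) ∪ ES.image (fun x => f p - del par d f x)) with hY
  have hXc : X.card ≤ S.card + 1 := card_image_le.trans (card_insert_le _ _)
  have hYc : Y.card ≤ 1 + BS.card + ES.card := by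
    refine (card_insert_le _ _).trans ?_
    have h1 := card_union_le (BS.image (fun b => f p - f b))
      (ES.image (fun x => f p - del par d f x))
    have h2 : (BS.image (fun b => f p - f b)).card ≤ BS.card := card_image_le
    have h3 : (ES.image (fun x => f p - del par d f x)).card ≤ ES.card := card_image_le
    omega
  obtain ⟨α, hα1, hα2⟩ := exists_good n (C.card + 1) X Y (by
    refine lt_of_le_of_lt ?_ hb
    exact Nat.add_le_add hXc (Nat.mul_le_mul_left _ hYc))
  have haIns : a ∉ insert v S := by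
    rw [mem_insert]
    push Not
    exact ⟨hav, haS⟩
  have hpa : ¬ Even (d p) := by
    have h1 := hd a hav
    rw [h1] at hae
    rw [hp]
    intro h2
    exact (Nat.even_add_one.1 hae) h2
  have hpBS : p ∈ BS := by
    rw [hBS, mem_filter]
    exact ⟨mem_univ _, hpa, hpL, hap⟩
  have hav' : ∀ x ∈ insert v S, Even (d x) := by
    intro x hx
    rcases mem_insert.1 hx with rfl | hx
    · rw [hv]; exact Even.zero
    · exact (hSe x hx).2.1
  have hoddC : ∀ y, y ≠ v → par y = a → ¬ Even (d y) := by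
    intro y hy1 hy2 h
    rw [hd y hy1, hy2, Nat.even_add_one] at h
    exact h hae
  let f' : V → ZMod n := fun x =>
    if x = a then α else if x ≠ v ∧ par x = a then f p - (j x : ZMod n) * α else f x
  have hfa : f' a = α := by simp [f']
  have hfC : ∀ y, y ≠ v → par y = a → f' y = f p - (j y : ZMod n) * α := by
    intro y h1 h2
    have h3 : y ≠ a := by
      rintro rfl
      exact hoddC y h1 h2 hae
    simp [f', h1, h2, h3]
  have hfA : ∀ x ∈ insert v S, f' x = f x := by
    intro x hx
    have h1 : x ≠ a := by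
      rintro rfl
      exact haIns hx
    have h2 : ¬ (x ≠ v ∧ par x = a) := by
      rintro ⟨h3, h4⟩
      exact hoddC x h3 h4 (hav' x hx)
    show (if x = a then α else if x ≠ v ∧ par x = a then f p - (j x : ZMod n) * α else f x) = f x
    rw [if_neg h1, if_neg h2]
  have hfB' : ∀ x, ¬ Even (d x) → par x ∈ insert v S → f' x = f x := by
    intro x hx1 hx2
    have h1 : x ≠ a := by
      rintro rfl
      exact hx1 hae
    have h2 : ¬ (x ≠ v ∧ par x = a) := by
      rintro ⟨_, h4⟩
      rw [h4] at hx2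
      exact haIns hx2
    show (if x = a then α else if x ≠ v ∧ par x = a then f p - (j x : ZMod n) * α else f x) = f x
    rw [if_neg h1, if_neg h2]
  have hfB : ∀ x ∈ BS, f' x = f x := by
    intro x hx
    rw [hBS, mem_filter] at hx
    exact hfB' x hx.2.1 hx.2.2.2
  have hoddpar : ∀ s ∈ S, ¬ Even (d (par s)) := by
    intro s hsS h
    obtain ⟨h1, h2, _⟩ := hSe s hsS
    rw [hd s h1, Nat.even_add_one] at h2
    exact h2 h
  have hdelE : ∀ x ∈ ES, del par d f' x = del par d f x := by
    intro x hx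
    rw [hES, mem_union] at hx
    rcases hx with hx | hx
    · have h1 := hoddpar x hx
      have h2 := (hSe x hx)
      rw [del, del, if_pos h2.2.1, if_pos h2.2.1, hfA x (mem_insert_of_mem hx),
        hfB' (par x) h1 h2.2.2]
    · have h1 := hfB x hx
      rw [hBS, mem_filter] at hx
      rw [del, del, if_neg hx.2.1, if_neg hx.2.1, h1, hfA _ hx.2.2.2]
  have hdela : del par d f' a = f p - α := by
    rw [del, if_pos hae, hfa, ← hp, hfB p hpBS]
  have hdelC : ∀ y, y ≠ v → par y = a → del par d f' y = f p - ((j y + 1 : ℕ) : ZMod n) * α := by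
    intro y h1 h2
    rw [del, if_neg (hoddC y h1 h2), hfC y h1 h2, h2, hfa]
    push_cast
    ring
  have hBS' : ∀ b, (¬ Even (d b) ∧ b ∉ L ∧ par b ∈ insert v (insert a S)) ↔
      (b ∈ BS ∨ (b ≠ v ∧ par b = a)) := by
    intro b
    rw [hBS, mem_filter]
    constructor
    · rintro ⟨h1, h2, h3⟩
      by_cases h4 : par b = a
      · right
        refine ⟨?_, h4⟩
        rintro rfl
        rw [hv] at h1
        exact h1 Even.zero
      · left
        refine ⟨mem_univ _, h1, h2, ?_⟩
        rcases mem_insert.1 h3 with h5 | h5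
        · exact mem_insert.2 (Or.inl h5)
        · rcases mem_insert.1 h5 with h6 | h6
          · exact absurd h6 h4
          · exact mem_insert_of_mem h6
    · rintro (⟨_, h1, h2, h3⟩ | ⟨h1, h2⟩)
      · refine ⟨h1, h2, ?_⟩
        rcases mem_insert.1 h3 with h5 | h5
        · exact mem_insert.2 (Or.inl h5)
        · exact mem_insert_of_mem (mem_insert_of_mem h5)
      · refine ⟨hoddC b h1 h2, ?_, ?_⟩
        · intro h3
          have := hL b h3
          rw [h2] at this
          exact hav this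
        · rw [h2]
          exact mem_insert_of_mem (mem_insert_self _ _)
  have hCmem : ∀ y, y ≠ v → par y = a → y ∈ C := by
    intro y h1 h2
    rw [hC, mem_filter]
    exact ⟨mem_univ _, h1, h2⟩
  -- the numbers of the new edges
  have hY0 : (0 : ZMod n) ∈ Y := mem_insert_self _ _
  have key : ∀ i i' : ℕ, i < i' → i' ≤ C.card + 1 → 1 ≤ i' →
      f p - (i : ZMod n) * α ≠ f p - (i' : ZMod n) * α := by
    intro i i' h1 h2 h3 h
    have h4 : ((i' - i : ℕ) : ZMod n) * α = 0 := by
      rw [Nat.cast_sub h1.le, sub_mul]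
      rw [sub_right_inj] at h
      rw [h, sub_self]
    have h5 := hα2 (i' - i) (mem_Icc.2 ⟨by omega, by omega⟩)
    rw [h4] at h5
    exact h5 hY0
  have key2 : ∀ i i' : ℕ, 1 ≤ i → 1 ≤ i' → i ≤ C.card + 1 → i' ≤ C.card + 1 →
      f p - (i : ZMod n) * α = f p - (i' : ZMod n) * α → i = i' := by
    intro i i' h1 h2 h3 h4 h
    rcases lt_trichotomy i i' with h5 | h5 | h5
    · exact absurd h (key i i' h5 h4 h2)
    · exact h5
    · exact absurd h.symm (key i' i h5 h3 h1)
  refine ⟨f', ?_, ?_, ?_, ?_, ?_⟩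
  · rw [hfA v (mem_insert_self _ _)]
    exact hs.root
  · have hne : ∀ x ∈ insert v S, f' x ≠ α := by
      intro x hx h
      rw [hfA x hx] at h
      exact hα1 (h ▸ mem_image_of_mem f hx)
    have hmem : ∀ x ∈ insert v (insert a S), x = a ∨ x ∈ insert v S := by
      intro x hx
      rcases mem_insert.1 hx with h5 | h5
      · exact Or.inr (mem_insert.2 (Or.inl h5))
      · rcases mem_insert.1 h5 with h6 | h6
        · exact Or.inl h6
        · exact Or.inr (mem_insert_of_mem h6)
    intro x hx y hy hxy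
    rcases hmem x (mem_coe.1 hx) with hx1 | hx1
    · rcases hmem y (mem_coe.1 hy) with hy1 | hy1
      · rw [hx1, hy1]
      · rw [hx1, hfa] at hxy
        exact absurd hxy.symm (hne y hy1)
    · rcases hmem y (mem_coe.1 hy) with hy1 | hy1
      · rw [hy1, hfa] at hxy
        exact absurd hxy (hne x hx1)
      · rw [hfA x hx1, hfA y hy1] at hxy
        exact hs.even (mem_coe.2 hx1) (mem_coe.2 hy1) hxy
  · have hmix : ∀ x ∈ BS, ∀ y, y ≠ v → par y = a → f' x ≠ f' y := by
      intro x hx y h1 h2 h
      rw [hfB x hx, hfC y h1 h2] at h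
      have h3 : (j y : ZMod n) * α = f p - f x := by rw [h]; ring
      have h4 := hj1 y (hCmem y h1 h2)
      refine hα2 (j y) (mem_Icc.2 ⟨h4.1, by omega⟩) ?_
      rw [h3]
      exact mem_insert_of_mem (mem_union_left _ (mem_image_of_mem (fun b => f p - f b) hx))
    intro x hx y hy hxy
    have hx' := (hBS' x).1 (by simpa using hx)
    have hy' := (hBS' y).1 (by simpa using hy)
    rcases hx' with hx' | ⟨hx1, hx2⟩
    · rcases hy' with hy' | ⟨hy1, hy2⟩
      · rw [hfB x hx', hfB y hy'] at hxy
        exact hs.odd (mem_coe.2 hx') (mem_coe.2 hy') hxy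
      · exact absurd hxy (hmix x hx' y hy1 hy2)
    · rcases hy' with hy' | ⟨hy1, hy2⟩
      · exact absurd hxy.symm (hmix y hy' x hx1 hx2)
      · rw [hfC x hx1 hx2, hfC y hy1 hy2] at hxy
        have h4 := hj1 x (hCmem x hx1 hx2)
        have h5 := hj1 y (hCmem y hy1 hy2)
        exact hj2 (mem_coe.2 (hCmem x hx1 hx2)) (mem_coe.2 (hCmem y hy1 hy2))
          (key2 _ _ h4.1 h5.1 (by omega) (by omega) hxy)
  · -- new edges
    have hmem : ∀ x ∈ (insert a S ∪ univ.filter (fun b : V => ¬ Even (d b) ∧ b ∉ L ∧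
        par b ∈ insert v (insert a S))),
        x ∈ ES ∨ ∃ i : ℕ, 1 ≤ i ∧ i ≤ C.card + 1 ∧ del par d f' x = f p - (i : ZMod n) * α ∧
          (x = a ∧ i = 1 ∨ (x ∈ C ∧ i = j x + 1)) := by
      intro x hx
      rcases mem_union.1 hx with hx | hx
      · rcases mem_insert.1 hx with rfl | hx
        · right
          exact ⟨1, le_rfl, by omega, by rw [hdela]; simp, Or.inl ⟨rfl, rfl⟩⟩
        · left
          exact mem_union_left _ hx
      · rw [mem_filter, hBS'] at hx
        rcases hx.2 with hx | ⟨hx1, hx2⟩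
        · left
          exact mem_union_right _ hx
        · right
          have h4 := hj1 x (hCmem x hx1 hx2)
          exact ⟨j x + 1, by omega, by omega, hdelC x hx1 hx2, Or.inr ⟨hCmem x hx1 hx2, rfl⟩⟩
    have hmix : ∀ x ∈ ES, ∀ i : ℕ, 1 ≤ i → i ≤ C.card + 1 →
        del par d f' x ≠ f p - (i : ZMod n) * α := by
      intro x hx i h1 h2 h
      rw [hdelE x hx] at h
      have h3 : (i : ZMod n) * α = f p - del par d f x := by rw [h]; ring
      refine hα2 i (mem_Icc.2 ⟨h1, h2⟩) ?_
      rw [h3]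
      exact mem_insert_of_mem (mem_union_right _
        (mem_image_of_mem (fun x => f p - del par d f x) hx))
    intro x hx y hy hxy
    rcases hmem x (mem_coe.1 hx) with hx | ⟨i, hi1, hi2, hi3, hi4⟩
    · rcases hmem y (mem_coe.1 hy) with hy | ⟨i', hi1', hi2', hi3', hi4'⟩
      · rw [hdelE x hx, hdelE y hy] at hxy
        exact hs.diff (mem_coe.2 hx) (mem_coe.2 hy) hxy
      · rw [hi3'] at hxy
        exact absurd hxy (hmix x hx i' hi1' hi2')
    · rcases hmem y (mem_coe.1 hy) with hy | ⟨i', hi1', hi2', hi3', hi4'⟩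
      · rw [hi3] at hxy
        exact absurd hxy.symm (hmix y hy i hi1 hi2)
      · rw [hi3, hi3'] at hxy
        have hii := key2 i i' hi1 hi1' hi2 hi2' hxy
        rcases hi4 with ⟨rfl, h1⟩ | ⟨h1, h2⟩
        · rcases hi4' with ⟨rfl, h1'⟩ | ⟨h1', h2'⟩
          · rfl
          · have := (hj1 y h1').1
            omega
        · rcases hi4' with ⟨rfl, h1'⟩ | ⟨h1', h2'⟩
          · have := (hj1 x h1).1
            omega
          · exact hj2 (mem_coe.2 h1) (mem_coe.2 h1') (by omega)
  · intro b hb1 hb2 hb3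
    rcases (hBS' b).1 ⟨hb1, hb2, hb3⟩ with hb4 | ⟨hb4, hb5⟩
    · have hb5 := hb4
      rw [hBS, mem_filter] at hb5
      obtain ⟨x, hx1, hx2⟩ := hs.sub b hb5.2.1 hb5.2.2.1 hb5.2.2.2
      refine ⟨x, ?_, ?_⟩
      · rcases mem_union.1 hx1 with hx1 | hx1
        · exact mem_union_left _ (mem_insert_of_mem hx1)
        · refine mem_union_right _ ?_
          rw [mem_filter, hBS']
          exact ⟨mem_univ _, Or.inl hx1⟩
      · rw [hdelE x hx1, hx2, hfB b hb4]
    · have h4 := hj1 b (hCmem b hb4 hb5)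
      rcases Nat.eq_or_lt_of_le h4.1 with h5 | h5
      · refine ⟨a, mem_union_left _ (mem_insert_self _ _), ?_⟩
        rw [hdela, hfC b hb4 hb5, ← h5]
        simp
      · obtain ⟨y, hy1, hy2⟩ := hj3 (j b - 1) (by omega) (by omega)
        have hy3 := hy1
        rw [hC, mem_filter] at hy3
        refine ⟨y, ?_, ?_⟩
        · refine mem_union_right _ ?_
          rw [mem_filter, hBS']
          exact ⟨mem_univ _, Or.inr hy3.2⟩
        · rw [hdelC y hy3.2.1 hy3.2.2, hfC b hb4 hb5, hy2]
          congr 3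
          omega

end Pool.Agent.Helper19.GH
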