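import Mathlib

/-!
# Labellings of trees with one large star by `ZMod n`

A rooted tree is given by its root `v`, the parent map `par` and the depth `d`.
-/

namespace Pool.Agent.Helper19.GH

open Finset

/-- The number of solutions of `j • α = c` in `ZMod n` is at most `gcd j n`. -/
lemma card_nsmul_eq_le (n : ℕ) [NeZero n] (j : ℕ) (hj : 0 < j) (c : ZMod n) :
    (univ.filter fun α : ZMod n => (j : ZMod n) * α = c).card ≤ Nat.gcd j n := by
  classical
  have hg : 0 < Nat.gcd j n := Nat.gcd_pos_of_pos_left _ hj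
  have h0 : (univ.filter fun α : ZMod n => (Nat.gcd j n) • α = 0).card ≤ Nat.gcd j n :=
    IsAddCyclic.card_nsmul_eq_zero_le hg
  rcases (univ.filter fun α : ZMod n => (j : ZMod n) * α = c).eq_empty_or_nonempty with h | ⟨a, ha⟩
  · rw [h]
    simp
  · refine le_trans ?_ h0
    refine Finset.card_le_card_of_injOn (fun α => α - a) ?_ ?_
    · intro α hα
      simp only [coe_filter, mem_univ, true_and, Set.mem_ofPred_eq] at hα ⊢
      simp only [mem_filter, mem_univ, true_and] at ha
      have h1 : (j : ZMod n) * (α - a) = 0 := by rw [mul_sub, hα, ha, sub_self]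
      have h2 : (((Nat.gcd j n : ℕ) : ℤ) : ZMod n) =
          (j : ZMod n) * ((Nat.gcdA j n : ℤ) : ZMod n) := by
        rw [Nat.gcd_eq_gcd_ab]
        push_cast
        simp
      rw [nsmul_eq_mul]
      have h3 : ((Nat.gcd j n : ℕ) : ZMod n) = (((Nat.gcd j n : ℕ) : ℤ) : ZMod n) := by push_cast; rfl
      rw [h3, h2]
      calc (j : ZMod n) * ((Nat.gcdA j n : ℤ) : ZMod n) * (α - a)
          = ((Nat.gcdA j n : ℤ) : ZMod n) * ((j : ZMod n) * (α - a)) := by ring
        _ = 0 := by rw [h1, mul_zero]
    · intro x _ y _ hxy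
      simpa using hxy

/-- Good choices exist: if the sets `X` (values to be avoided by `α`) and `Y` (values to be
avoided by `j α`, `1 ≤ j ≤ D`) are small. -/
lemma exists_good (n : ℕ) [NeZero n] (D : ℕ) (X Y : Finset (ZMod n))
    (h : X.card + (∑ j ∈ Icc 1 D, Nat.gcd j n) * Y.card < n) :
    ∃ α : ZMod n, α ∉ X ∧ ∀ j ∈ Icc 1 D, (j : ZMod n) * α ∉ Y := by
  classical
  by_contra hcon
  push Not at hcon
  have hcov : (univ : Finset (ZMod n)) ⊆ X ∪ (Icc 1 D).biUnion (fun j => Y.biUnion fun y =>
      univ.filter fun α : ZMod n => (j : ZMod n) * α = y) := by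
    intro α _
    rw [mem_union]
    by_cases hα : α ∈ X
    · exact Or.inl hα
    · right
      obtain ⟨j, hj, hy⟩ := hcon α hα
      rw [mem_biUnion]
      exact ⟨j, hj, mem_biUnion.2 ⟨_, hy, by simp⟩⟩
  have hc := card_le_card hcov
  rw [card_univ, ZMod.card] at hc
  have h1 : ((Icc 1 D).biUnion (fun j => Y.biUnion fun y =>
      univ.filter fun α : ZMod n => (j : ZMod n) * α = y)).card ≤
      (∑ j ∈ Icc 1 D, Nat.gcd j n) * Y.card := by
    refine card_biUnion_le.trans ?_
    rw [sum_mul]
    refine sum_le_sum fun j hj => ?_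
    refine card_biUnion_le.trans ?_
    rw [mul_comm]
    calc ∑ y ∈ Y, (univ.filter fun α : ZMod n => (j : ZMod n) * α = y).card
        ≤ ∑ _y ∈ Y, Nat.gcd j n := sum_le_sum fun y _ => card_nsmul_eq_le n j (by
          have := (mem_Icc.1 hj).1; omega) y
      _ = Y.card * Nat.gcd j n := by rw [sum_const, smul_eq_mul]
  have h2 := card_union_le X ((Icc 1 D).biUnion (fun j => Y.biUnion fun y =>
      univ.filter fun α : ZMod n => (j : ZMod n) * α = y))
  omega

variable {V : Type} [Fintype V] [DecidableEq V]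

/-- The difference at the lower end point `x` of the edge from `x` to its parent. -/
def del {n : ℕ} (par : V → V) (d : V → ℕ) (f : V → ZMod n) (x : V) : ZMod n :=
  if Even (d x) then f (par x) - f x else f x - f (par x)

/-- The state after the vertices `S` of even depth (together with their children) have been
labelled. -/
structure State (n : ℕ) (v : V) (par : V → V) (d : V → ℕ) (L S : Finset V) (f : V → ZMod n) :
    Prop where
  root : f v = 0
  even : Set.InjOn f (insert v S : Finset V)
  odd : Set.InjOn f (univ.filter fun b : V => ¬ Even (d b) ∧ b ∉ L ∧ par b ∈ insert v S)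
  diff : Set.InjOn (del par d f)
    (S ∪ univ.filter fun b : V => ¬ Even (d b) ∧ b ∉ L ∧ par b ∈ insert v S : Finset V)
  sub : ∀ b, ¬ Even (d b) → b ∉ L → par b ∈ insert v S →
    ∃ x ∈ S ∪ univ.filter (fun b : V => ¬ Even (d b) ∧ b ∉ L ∧ par b ∈ insert v S),
      del par d f x = f b

end Pool.Agent.Helper19.GH
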