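import Pool.Agent.Helper19.GH.Ext

/-!
# Labellings and decompositions
-/

namespace Pool.Agent.Helper19.GH

open Finset

variable {V : Type} [Fintype V] [DecidableEq V]

/-- The initial state: only the root and its children are labelled. -/
lemma initial {n : ℕ} [NeZero n] {v : V} {par : V → V} {d : V → ℕ} {L : Finset V}
    (hv : d v = 0) (hn : Fintype.card V = n + 1) :
    ∃ f : V → ZMod n, State n v par d L ∅ f := by
  classical
  have h1 : ((univ : Finset V).erase v).card ≤ (univ : Finset (ZMod n)).card := by
    rw [card_erase_of_mem (mem_univ v), card_univ, card_univ, ZMod.card, hn]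
    omega
  obtain ⟨e⟩ : Nonempty (((univ : Finset V).erase v : Finset V) ↪ (univ : Finset (ZMod n))) := by
    apply Function.Embedding.nonempty_of_card_le
    rw [Fintype.card_coe, Fintype.card_coe]
    exact h1
  let f : V → ZMod n := fun x => if h : x ∈ (univ : Finset V).erase v then (e ⟨x, h⟩).1 else 0
  have hf0 : f v = 0 := by simp [f]
  have hne : ∀ b, ¬ Even (d b) → b ≠ v := by
    intro b hb1 hb2
    rw [hb2, hv] at hb1
    exact hb1 Even.zero
  have hfi : ∀ x y, x ≠ v → y ≠ v → f x = f y → x = y := by
    intro x y hx hy h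
    have hx' : x ∈ (univ : Finset V).erase v := mem_erase.2 ⟨hx, mem_univ _⟩
    have hy' : y ∈ (univ : Finset V).erase v := mem_erase.2 ⟨hy, mem_univ _⟩
    simp only [f, hx', hy', dif_pos] at h
    have h2 := e.injective (Subtype.ext h)
    exact congrArg Subtype.val h2
  have hdel : ∀ b, ¬ Even (d b) → par b ∈ insert v (∅ : Finset V) → del par d f b = f b := by
    intro b h1 h2
    rw [mem_insert] at h2
    rcases h2 with h2 | h2
    · rw [del, if_neg h1, h2, hf0, sub_zero]
    · simp at h2
  refine ⟨f, hf0, ?_, ?_, ?_, ?_⟩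
  · intro x hx y hy _
    simp at hx hy
    rw [hx, hy]
  · intro x hx y hy hxy
    have hx1 := (mem_filter.1 (mem_coe.1 (by simpa using hx) : x ∈ univ.filter fun b : V =>
      ¬ Even (d b) ∧ b ∉ L ∧ par b ∈ insert v (∅ : Finset V))).2
    have hy1 := (mem_filter.1 (mem_coe.1 (by simpa using hy) : y ∈ univ.filter fun b : V =>
      ¬ Even (d b) ∧ b ∉ L ∧ par b ∈ insert v (∅ : Finset V))).2
    exact hfi x y (hne x hx1.1) (hne y hy1.1) hxy
  · intro x hx y hy hxy
    rw [mem_coe, empty_union, mem_filter] at hx hy
    rw [hdel x hx.2.1 hx.2.2.2, hdel y hy.2.1 hy.2.2.2] at hxy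
    exact hfi x y (hne x hx.2.1) (hne y hy.2.1) hxy
  · intro b hb1 hb2 hb3
    refine ⟨b, ?_, hdel b hb1 hb3⟩
    rw [empty_union, mem_filter]
    exact ⟨mem_univ _, hb1, hb2, hb3⟩

/-- All vertices outside `L` can be labelled. -/
lemma all_states {n : ℕ} [NeZero n] {v : V} {par : V → V} {d : V → ℕ} {L : Finset V}
    (hv : d v = 0) (hd : ∀ x, x ≠ v → d x = d (par x) + 1) (hn : Fintype.card V = n + 1)
    (hL : ∀ x ∈ L, x ≠ v ∧ par x = v ∧ ∀ y, y ≠ v → par y ≠ x) {D t : ℕ}
    (hD : ∀ a, a ≠ v → Even (d a) → (univ.filter fun y : V => y ≠ v ∧ par y = a).card + 1 ≤ D)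
    (ht : L.card + t = n) (hb : t * (1 + 2 * ∑ j ∈ Icc 1 D, Nat.gcd j n) < n) :
    ∃ f : V → ZMod n, State n v par d L (univ.filter fun a : V => a ≠ v ∧ Even (d a)) f := by
  classical
  set A := univ.filter fun a : V => a ≠ v ∧ Even (d a) with hA
  have main : ∀ k, k ≤ A.card → ∃ S : Finset V, S ⊆ A ∧ S.card = k ∧
      (∀ s ∈ S, par (par s) ∈ insert v S) ∧ ∃ f : V → ZMod n, State n v par d L S f := by
    intro k
    induction k with
    | zero =>
      intro _
      exact ⟨∅, empty_subset _, card_empty, by simp, initial hv hn⟩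
    | succ k ih =>
      intro hk
      obtain ⟨S, hSA, hSc, hScl, f, hf⟩ := ih (by omega)
      -- choose a vertex of least depth outside S
      have hne : (A \ S).Nonempty := by
        rw [← card_pos, card_sdiff_of_subset hSA]
        omega
      obtain ⟨a, ha, hmin⟩ := exists_min_image (A \ S) d hne
      rw [mem_sdiff] at ha
      have haA := ha.1
      rw [hA, mem_filter] at haA
      obtain ⟨_, hav, hae⟩ := haA
      have hda := hd a hav
      have hpv : par a ≠ v := by
        intro h
        rw [h, hv] at hda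
        rw [hda] at hae
        exact (by decide : ¬ Even (0 + 1)) hae
      have hda2 := hd (par a) hpv
      have hap : par (par a) ∈ insert v S := by
        by_cases h : par (par a) = v
        · rw [h]
          exact mem_insert_self _ _
        · refine mem_insert_of_mem ?_
          by_contra h2
          have h3 : par (par a) ∈ A \ S := by
            rw [mem_sdiff, hA, mem_filter]
            refine ⟨⟨mem_univ _, h, ?_⟩, h2⟩
            rw [hda, hda2] at hae
            have : d (par (par a)) + 1 + 1 = d (par (par a)) + 2 := rfl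
            rw [this, Nat.even_add] at hae
            exact hae.2 (by decide)
          have h4 := hmin _ h3
          omega
      have hpL : par a ∉ L := by
        intro h
        exact (hL _ h).2.2 a hav rfl
      set BS := univ.filter fun b : V => ¬ Even (d b) ∧ b ∉ L ∧ par b ∈ insert v S with hBS
      have hES : (S ∪ BS).card + 1 ≤ t := by
        have h1 : insert a (S ∪ BS) ⊆ ((univ : Finset V).erase v) \ L := by
          intro x hx
          rw [mem_sdiff, mem_erase]
          rw [mem_insert, mem_union] at hx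
          have hevL : ∀ y, y ∈ L → ¬ Even (d y) := by
            intro y hy h
            obtain ⟨h5, h6, _⟩ := hL y hy
            rw [hd y h5, h6, hv] at h
            exact (by decide : ¬ Even (0 + 1)) h
          rcases hx with rfl | hx | hx
          · exact ⟨⟨hav, mem_univ _⟩, fun h => hevL _ h hae⟩
          · have h2 := hSA hx
            rw [hA, mem_filter] at h2
            exact ⟨⟨h2.2.1, mem_univ _⟩, fun h => hevL _ h h2.2.2⟩
          · rw [hBS, mem_filter] at hx
            refine ⟨⟨?_, mem_univ _⟩, hx.2.2.1⟩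
            rintro rfl
            rw [hv] at hx
            exact hx.2.1 Even.zero
        have h2 := card_le_card h1
        have h3 : a ∉ S ∪ BS := by
          rw [mem_union]
          rintro (h | h)
          · exact ha.2 h
          · rw [hBS, mem_filter] at h
            exact h.2.1 hae
        have h4 : L ⊆ (univ : Finset V).erase v := fun x hx =>
          mem_erase.2 ⟨(hL x hx).1, mem_univ _⟩
        rw [card_insert_of_notMem h3, card_sdiff_of_subset h4, card_erase_of_mem (mem_univ v),
          card_univ, hn] at h2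
        omega
      obtain ⟨f', hf'⟩ := extend (a := a) hv hd (fun x hx => (hL x hx).2.1) (fun s hs => by
          have h2 := hSA hs
          rw [hA, mem_filter] at h2
          exact ⟨h2.2.1, h2.2.2, hScl s hs⟩) hf ha.2 hav hae hap hpL (by
        have h1 : ∑ j ∈ Icc 1 ((univ.filter fun y : V => y ≠ v ∧ par y = a).card + 1),
            Nat.gcd j n ≤ ∑ j ∈ Icc 1 D, Nat.gcd j n :=
          sum_le_sum_of_subset (Icc_subset_Icc_right (hD a hav hae))
        have h2 : BS.card ≤ (S ∪ BS).card := card_le_card subset_union_right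
        have h3 : S.card ≤ (S ∪ BS).card := card_le_card subset_union_left
        have h4 : 1 + BS.card + (S ∪ BS).card ≤ 2 * t := by omega
        calc S.card + 1 + (∑ j ∈ Icc 1 ((univ.filter fun y : V => y ≠ v ∧ par y = a).card + 1),
              Nat.gcd j n) * (1 + BS.card + (S ∪ BS).card)
            ≤ t + (∑ j ∈ Icc 1 D, Nat.gcd j n) * (2 * t) :=
              Nat.add_le_add (by omega) (Nat.mul_le_mul h1 h4)
          _ = t * (1 + 2 * ∑ j ∈ Icc 1 D, Nat.gcd j n) := by ring
          _ < n := hb)
      refine ⟨insert a S, insert_subset ha.1 hSA, ?_, ?_, f', hf'⟩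
      · rw [card_insert_of_notMem ha.2, hSc]
      · intro s hs
        rcases mem_insert.1 hs with rfl | hs
        · rcases mem_insert.1 hap with h | h
          · rw [h]
            exact mem_insert_self _ _
          · exact mem_insert_of_mem (mem_insert_of_mem h)
        · rcases mem_insert.1 (hScl s hs) with h | h
          · rw [h]
            exact mem_insert_self _ _
          · exact mem_insert_of_mem (mem_insert_of_mem h)
  obtain ⟨S, hSA, hSc, _, f, hf⟩ := main A.card le_rfl
  have : S = A := eq_of_subset_of_card_le hSA hSc.ge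
  rw [this] at hf
  exact ⟨f, hf⟩

/-- The full labelling. -/
theorem labelling {n : ℕ} [NeZero n] {v : V} {par : V → V} {d : V → ℕ} {L : Finset V}
    (hv : d v = 0) (hd : ∀ x, x ≠ v → d x = d (par x) + 1) (hn : Fintype.card V = n + 1)
    (hL : ∀ x ∈ L, x ≠ v ∧ par x = v ∧ ∀ y, y ≠ v → par y ≠ x) {D t : ℕ}
    (hD : ∀ a, a ≠ v → Even (d a) → (univ.filter fun y : V => y ≠ v ∧ par y = a).card + 1 ≤ D)
    (ht : L.card + t = n) (hb : t * (1 + 2 * ∑ j ∈ Icc 1 D, Nat.gcd j n) < n) :
    ∃ F : V → ZMod n, (∀ x y, (Even (d x) ↔ Even (d y)) → F x = F y → x = y) ∧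
      (∀ x y, x ≠ v → y ≠ v → del par d F x = del par d F y → x = y) := by
  classical
  obtain ⟨f, hf⟩ := all_states hv hd hn hL hD ht hb
  set A := univ.filter fun a : V => a ≠ v ∧ Even (d a) with hA
  set BS := univ.filter fun b : V => ¬ Even (d b) ∧ b ∉ L ∧ par b ∈ insert v A with hBS
  have hmemA : ∀ x, Even (d x) → x ∈ insert v A := by
    intro x hx
    by_cases h : x = v
    · rw [h]; exact mem_insert_self _ _
    · refine mem_insert_of_mem ?_
      rw [hA, mem_filter]
      exact ⟨mem_univ _, h, hx⟩
  have hoddne : ∀ x, ¬ Even (d x) → x ≠ v := by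
    rintro x hx rfl
    rw [hv] at hx
    exact hx Even.zero
  have hparA : ∀ x, ¬ Even (d x) → par x ∈ insert v A := by
    intro x hx
    apply hmemA
    have h1 := hd x (hoddne x hx)
    rw [h1, Nat.even_add_one, not_not] at hx
    exact hx
  have hmemB : ∀ x, ¬ Even (d x) → x ∉ L → x ∈ BS := by
    intro x h1 h2
    rw [hBS, mem_filter]
    exact ⟨mem_univ _, h1, h2, hparA x h1⟩
  have hevL : ∀ y, y ∈ L → ¬ Even (d y) := by
    intro y hy h
    obtain ⟨h5, h6, _⟩ := hL y hy
    rw [hd y h5, h6, hv] at h
    exact (by decide : ¬ Even (0 + 1)) h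
  have hW : A ∪ BS = ((univ : Finset V).erase v) \ L := by
    ext x
    rw [mem_union, mem_sdiff, mem_erase]
    constructor
    · rintro (h | h)
      · rw [hA, mem_filter] at h
        exact ⟨⟨h.2.1, mem_univ _⟩, fun h' => hevL _ h' h.2.2⟩
      · rw [hBS, mem_filter] at h
        exact ⟨⟨hoddne x h.2.1, mem_univ _⟩, h.2.2.1⟩
    · rintro ⟨⟨h1, _⟩, h2⟩
      by_cases h3 : Even (d x)
      · left
        rw [hA, mem_filter]
        exact ⟨mem_univ _, h1, h3⟩
      · right
        exact hmemB x h3 h2
  have hWc : (A ∪ BS).card = t := by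
    have h4 : L ⊆ (univ : Finset V).erase v := fun x hx =>
      mem_erase.2 ⟨(hL x hx).1, mem_univ _⟩
    rw [hW, card_sdiff_of_subset h4, card_erase_of_mem (mem_univ v), card_univ, hn]
    omega
  -- the used differences
  set U := (A ∪ BS).image (del par d f) with hU
  have hUc : U.card = t := by
    rw [hU, card_image_of_injOn hf.diff, hWc]
  obtain ⟨e⟩ : Nonempty (L ↪ (Uᶜ : Finset (ZMod n))) := by
    apply Function.Embedding.nonempty_of_card_le
    rw [Fintype.card_coe, Fintype.card_coe, card_compl, ZMod.card, hUc]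
    omega
  let F : V → ZMod n := fun x => if h : x ∈ L then (e ⟨x, h⟩).1 else f x
  have hFL : ∀ x, x ∈ L → F x ∉ U := by
    intro x hx
    simp only [F, hx, dif_pos]
    have := (e ⟨x, hx⟩).2
    rwa [mem_compl] at this
  have hFLi : ∀ x y, x ∈ L → y ∈ L → F x = F y → x = y := by
    intro x y hx hy h
    simp only [F, hx, hy, dif_pos] at h
    exact congrArg Subtype.val (e.injective (Subtype.ext h))
  have hFf : ∀ x, x ∉ L → F x = f x := by
    intro x hx
    simp only [F, hx, dif_neg, not_false_iff]
  have hvL : v ∉ L := fun h => (hL v h).1 rfl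
  have hparL : ∀ x, x ≠ v → par x ∉ L := fun x hx h => (hL _ h).2.2 x hx rfl
  have hdelF : ∀ x, x ≠ v → x ∉ L → del par d F x = del par d f x := by
    intro x hx1 hx2
    rw [del, del, hFf x hx2, hFf _ (hparL x hx1)]
  have hdelL : ∀ x, x ∈ L → del par d F x = F x := by
    intro x hx
    rw [del, if_neg (hevL x hx), (hL x hx).2.1, hFf v hvL, hf.root, sub_zero]
  have hfU : ∀ x ∈ BS, f x ∈ U := by
    intro x hx
    rw [hBS, mem_filter] at hx
    obtain ⟨y, hy1, hy2⟩ := hf.sub x hx.2.1 hx.2.2.1 hx.2.2.2
    rw [← hy2, hU]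
    exact mem_image_of_mem _ hy1
  refine ⟨F, ?_, ?_⟩
  · intro x y hxy h
    by_cases hx : Even (d x)
    · have hy : Even (d y) := hxy.1 hx
      have hx1 : x ∉ L := fun h => hevL x h hx
      have hy1 : y ∉ L := fun h => hevL y h hy
      rw [hFf x hx1, hFf y hy1] at h
      exact hf.even (mem_coe.2 (hmemA x hx)) (mem_coe.2 (hmemA y hy)) h
    · have hy : ¬ Even (d y) := fun h => hx (hxy.2 h)
      by_cases hx1 : x ∈ L
      · by_cases hy1 : y ∈ L
        · exact hFLi x y hx1 hy1 h
        · exfalso
          apply hFL x hx1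
          rw [h, hFf y hy1]
          exact hfU y (hmemB y hy hy1)
      · by_cases hy1 : y ∈ L
        · exfalso
          apply hFL y hy1
          rw [← h, hFf x hx1]
          exact hfU x (hmemB x hx hx1)
        · rw [hFf x hx1, hFf y hy1] at h
          exact hf.odd (by simpa [hBS] using hmemB x hx hx1) (by simpa [hBS] using hmemB y hy hy1) h
  · intro x y hx hy h
    have hmemU : ∀ z, z ≠ v → z ∉ L → z ∈ A ∪ BS := by
      intro z h1 h2
      rw [hW, mem_sdiff, mem_erase]
      exact ⟨⟨h1, mem_univ _⟩, h2⟩
    by_cases hx1 : x ∈ L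
    · rw [hdelL x hx1] at h
      by_cases hy1 : y ∈ L
      · rw [hdelL y hy1] at h
        exact hFLi x y hx1 hy1 h
      · exfalso
        apply hFL x hx1
        rw [h, hdelF y hy hy1, hU]
        exact mem_image_of_mem _ (hmemU y hy hy1)
    · by_cases hy1 : y ∈ L
      · exfalso
        rw [hdelL y hy1] at h
        apply hFL y hy1
        rw [← h, hdelF x hx hx1, hU]
        exact mem_image_of_mem _ (hmemU x hx hx1)
      · rw [hdelF x hx hx1, hdelF y hy hy1] at h
        exact hf.diff (mem_coe.2 (hmemU x hx hx1)) (mem_coe.2 (hmemU y hy hy1)) h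

end Pool.Agent.Helper19.GH
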