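import Pool.Agent.Helper19.GH.Main

/-!
# Trees as rooted trees, and the decomposition obtained from a labelling
-/

namespace Pool.Agent.Helper19.GH

open Finset

/-- The graph `G` decomposes into copies of `T`: there are finitely many injective maps
`φ i : V → W` sending edges of `T` to edges of `G`, such that every edge of `G` lies in the image
of `T` under exactly one of the maps. -/
def Decomposes {V W : Type} (T : SimpleGraph V) (G : SimpleGraph W) : Prop :=
  ∃ (m : ℕ) (φ : Fin m → V → W), (∀ i, Function.Injective (φ i)) ∧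
    (∀ i u w, T.Adj u w → G.Adj (φ i u) (φ i w)) ∧
    ∀ x y, G.Adj x y → ∃! i, ∃ u w, T.Adj u w ∧ φ i u = x ∧ φ i w = y

variable {V : Type} [Fintype V] [DecidableEq V]

/-- The parent map of a tree with root `v`. -/
lemma exists_par (T : SimpleGraph V) (hT : T.IsTree) (v : V) :
    ∃ par : V → V, (∀ x, x ≠ v → T.Adj x (par x) ∧ T.dist v x = T.dist v (par x) + 1) ∧
      ∀ u w, T.Adj u w → (u ≠ v ∧ par u = w) ∨ (w ≠ v ∧ par w = u) := by
  classical
  have h1 : ∀ x, x ≠ v → ∃ y, T.Adj x y ∧ T.dist v x = T.dist v y + 1 := by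
    intro x hx
    obtain ⟨p, hp⟩ := hT.connected.exists_walk_length_eq_dist x v
    cases p with
    | nil => exact absurd rfl hx
    | @cons _ y _ h q =>
      refine ⟨y, h, ?_⟩
      rw [SimpleGraph.Walk.length_cons] at hp
      have h2 : T.dist y v ≤ q.length := SimpleGraph.dist_le q
      rcases hT.dist_eq_dist_add_one_of_adj v h with h3 | h3
      · exact h3
      · rw [SimpleGraph.dist_comm (u := v) (v := y), SimpleGraph.dist_comm (u := v) (v := x)] at h3
        omega
  choose! par hpar using h1
  refine ⟨par, hpar, ?_⟩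
  set E := ((univ : Finset V).erase v).image (fun x => s(x, par x)) with hE
  have hinj : Set.InjOn (fun x => s(x, par x)) ((univ : Finset V).erase v) := by
    intro x hx y hy hxy
    have hx' := (mem_erase.1 (mem_coe.1 hx)).1
    have hy' := (mem_erase.1 (mem_coe.1 hy)).1
    simp only [Sym2.eq_iff] at hxy
    rcases hxy with ⟨h2, _⟩ | ⟨h2, h3⟩
    · exact h2
    · exfalso
      have h4 := (hpar x hx').2
      have h5 := (hpar y hy').2
      rw [h3] at h4
      rw [← h2] at h5
      omega
  have hsub : E ⊆ T.edgeFinset := by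
    intro e he
    rw [hE, mem_image] at he
    obtain ⟨x, hx, rfl⟩ := he
    rw [SimpleGraph.mem_edgeFinset, SimpleGraph.mem_edgeSet]
    exact (hpar x (mem_erase.1 hx).1).1
  have hcard : T.edgeFinset.card ≤ E.card := by
    rw [hE, card_image_of_injOn hinj, card_erase_of_mem (mem_univ v), card_univ]
    have := hT.card_edgeFinset
    omega
  have heq : E = T.edgeFinset := eq_of_subset_of_card_le hsub hcard
  intro u w huw
  have h2 : s(u, w) ∈ E := by
    rw [heq, SimpleGraph.mem_edgeFinset, SimpleGraph.mem_edgeSet]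
    exact huw
  rw [hE, mem_image] at h2
  obtain ⟨x, hx, hxe⟩ := h2
  have hx' := (mem_erase.1 hx).1
  rw [Sym2.eq_iff] at hxe
  rcases hxe with ⟨h3, h4⟩ | ⟨h3, h4⟩
  · left
    rw [← h3]
    exact ⟨hx', h4⟩
  · right
    rw [← h3]
    exact ⟨hx', h4⟩

/-- A labelling gives a decomposition of `K_{n,n}`. -/
lemma decomposes_of_labelling {n : ℕ} [NeZero n] (T : SimpleGraph V) (v : V) (par : V → V)
    (d : V → ℕ) (hn : Fintype.card V = n + 1)
    (hpar : ∀ x, x ≠ v → T.Adj x (par x) ∧ d x = d (par x) + 1)
    (hedge : ∀ u w, T.Adj u w → (u ≠ v ∧ par u = w) ∨ (w ≠ v ∧ par w = u))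
    (F : V → ZMod n) (hF1 : ∀ x y, (Even (d x) ↔ Even (d y)) → F x = F y → x = y)
    (hF2 : ∀ x y, x ≠ v → y ≠ v → del par d F x = del par d F y → x = y) :
    Decomposes T (completeBipartiteGraph (Fin n) (Fin n)) := by
  classical
  obtain ⟨e⟩ : Nonempty (ZMod n ≃ Fin n) := ⟨Fintype.equivOfCardEq (by simp [ZMod.card])⟩
  -- the differences of the edges are all elements
  have hsurj : ∀ c : ZMod n, ∃ z, z ≠ v ∧ del par d F z = c := by
    intro c
    have h1 : ((univ : Finset V).erase v).image (del par d F) = univ := by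
      apply eq_univ_of_card
      rw [card_image_of_injOn, card_erase_of_mem (mem_univ v), card_univ, hn, ZMod.card]
      · rfl
      · intro x hx y hy hxy
        exact hF2 x y (mem_erase.1 (mem_coe.1 hx)).1 (mem_erase.1 (mem_coe.1 hy)).1 hxy
    have h2 : c ∈ ((univ : Finset V).erase v).image (del par d F) := by
      rw [h1]
      exact mem_univ c
    obtain ⟨z, hz, hzc⟩ := mem_image.1 h2
    exact ⟨z, (mem_erase.1 hz).1, hzc⟩
  let φ : Fin n → V → Fin n ⊕ Fin n := fun i u =>
    if Even (d u) then Sum.inl (e (F u + e.symm i)) else Sum.inr (e (F u + e.symm i))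
  have hφe : ∀ i u, Even (d u) → φ i u = Sum.inl (e (F u + e.symm i)) := fun i u h => if_pos h
  have hφo : ∀ i u, ¬ Even (d u) → φ i u = Sum.inr (e (F u + e.symm i)) := fun i u h => if_neg h
  have hpe : ∀ z, z ≠ v → Even (d z) → ¬ Even (d (par z)) := by
    intro z hz h1 h2
    rw [(hpar z hz).2, Nat.even_add_one] at h1
    exact h1 h2
  have hpo : ∀ z, z ≠ v → ¬ Even (d z) → Even (d (par z)) := by
    intro z hz h1
    rw [(hpar z hz).2, Nat.even_add_one, not_not] at h1
    exact h1
  have key : ∀ a b : Fin n, ∃! i, ∃ u w, T.Adj u w ∧ φ i u = Sum.inl a ∧ φ i w = Sum.inr b := by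
    intro a b
    obtain ⟨z, hz, hzc⟩ := hsurj (e.symm b - e.symm a)
    -- the even and the odd end point of the edge at z
    obtain ⟨p, q, hpq, hp, hq, hd, huniq⟩ : ∃ p q, T.Adj p q ∧ Even (d p) ∧ ¬ Even (d q) ∧
        F q - F p = e.symm b - e.symm a ∧ ∀ u w, T.Adj u w → Even (d u) → ¬ Even (d w) →
          F w - F u = e.symm b - e.symm a → u = p := by
      have hall : ∀ u w, T.Adj u w → Even (d u) → ¬ Even (d w) →
          F w - F u = e.symm b - e.symm a → (u = z ∧ w = par z) ∨ (w = z ∧ u = par z) := by
        intro u w huw hu hw h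
        rcases hedge u w huw with ⟨h1, h2⟩ | ⟨h1, h2⟩
        · left
          have h3 : del par d F u = e.symm b - e.symm a := by
            rw [del, if_pos hu, h2, h]
          have h4 := hF2 u z h1 hz (h3.trans hzc.symm)
          exact ⟨h4, by rw [← h4, h2]⟩
        · right
          have h3 : del par d F w = e.symm b - e.symm a := by
            rw [del, if_neg hw, h2, h]
          have h4 := hF2 w z h1 hz (h3.trans hzc.symm)
          exact ⟨h4, by rw [← h4, h2]⟩
      by_cases hze : Even (d z)
      · refine ⟨z, par z, (hpar z hz).1, hze, hpe z hz hze, ?_, ?_⟩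
        · rw [← hzc, del, if_pos hze]
        · intro u w huw hu hw h
          rcases hall u w huw hu hw h with ⟨h1, _⟩ | ⟨h1, _⟩
          · exact h1
          · exfalso
            rw [h1] at hw
            exact hw hze
      · refine ⟨par z, z, (hpar z hz).1.symm, hpo z hz hze, hze, ?_, ?_⟩
        · rw [← hzc, del, if_neg hze]
        · intro u w huw hu hw h
          rcases hall u w huw hu hw h with ⟨h1, _⟩ | ⟨_, h1⟩
          · exfalso
            rw [h1] at hu
            exact hze hu
          · exact h1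
    refine ⟨e (e.symm a - F p), ⟨p, q, hpq, ?_, ?_⟩, ?_⟩
    · rw [hφe _ _ hp, Equiv.symm_apply_apply, add_sub_cancel, Equiv.apply_symm_apply]
    · rw [hφo _ _ hq, Equiv.symm_apply_apply]
      have h5 : F q + (e.symm a - F p) = e.symm b := by
        have : F q + (e.symm a - F p) = (F q - F p) + e.symm a := by ring
        rw [this, hd, sub_add_cancel]
      rw [h5, Equiv.apply_symm_apply]
    · rintro i ⟨u, w, huw, hu, hw⟩
      have hue : Even (d u) := by
        by_contra h
        rw [hφo i u h] at hu
        cases hu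
      have hwo : ¬ Even (d w) := by
        intro h
        rw [hφe i w h] at hw
        cases hw
      rw [hφe i u hue, Sum.inl.injEq] at hu
      rw [hφo i w hwo, Sum.inr.injEq] at hw
      have hu' : F u + e.symm i = e.symm a := by rw [← hu, Equiv.symm_apply_apply]
      have hw' : F w + e.symm i = e.symm b := by rw [← hw, Equiv.symm_apply_apply]
      have h6 : F w - F u = e.symm b - e.symm a := by rw [← hu', ← hw']; ring
      have h7 := huniq u w huw hue hwo h6
      rw [h7] at hu'
      rw [← hu', add_sub_cancel_left, Equiv.apply_symm_apply]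
  refine ⟨n, φ, ?_, ?_, ?_⟩
  · intro i x y hxy
    by_cases hx : Even (d x)
    · by_cases hy : Even (d y)
      · rw [hφe i x hx, hφe i y hy, Sum.inl.injEq, e.injective.eq_iff, add_left_inj] at hxy
        exact hF1 x y (iff_of_true hx hy) hxy
      · rw [hφe i x hx, hφo i y hy] at hxy
        cases hxy
    · by_cases hy : Even (d y)
      · rw [hφo i x hx, hφe i y hy] at hxy
        cases hxy
      · rw [hφo i x hx, hφo i y hy, Sum.inr.injEq, e.injective.eq_iff, add_left_inj] at hxy
        exact hF1 x y (iff_of_false hx hy) hxy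
  · intro i u w huw
    have hpar' : (Even (d u) ∧ ¬ Even (d w)) ∨ (¬ Even (d u) ∧ Even (d w)) := by
      rcases hedge u w huw with ⟨h1, h2⟩ | ⟨h1, h2⟩
      · by_cases h : Even (d u)
        · left
          rw [← h2]
          exact ⟨h, hpe u h1 h⟩
        · right
          rw [← h2]
          exact ⟨h, hpo u h1 h⟩
      · by_cases h : Even (d w)
        · right
          rw [← h2]
          exact ⟨hpe w h1 h, h⟩
        · left
          rw [← h2]
          exact ⟨hpo w h1 h, h⟩
    rcases hpar' with ⟨h1, h2⟩ | ⟨h1, h2⟩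
    · rw [hφe i u h1, hφo i w h2]
      simp
    · rw [hφo i u h1, hφe i w h2]
      simp
  · intro x y hxy
    rcases x with a | a <;> rcases y with b | b
    · simp at hxy
    · exact key a b
    · obtain ⟨i, ⟨u, w, h1, h2, h3⟩, h4⟩ := key b a
      refine ⟨i, ⟨w, u, h1.symm, h3, h2⟩, ?_⟩
      rintro i' ⟨u', w', h1', h2', h3'⟩
      exact h4 i' ⟨w', u', h1'.symm, h3', h2'⟩
    · simp at hxy

end Pool.Agent.Helper19.GH
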